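import Pool.Agent.Helper28.Long.MLS
import Pool.Agent.Helper28.Ram.Par3

/-!
# The parameters for machines with long registers
-/

namespace Pool.Agent.Helper28.Long

open Pool.Agent.Helper65.LinSpace Pool.Agent.Helper78.Mpc Pool.Agent.Helper28.Ram Finset Filter

/-- The largest length of the contents. -/
def ZL (n : ℕ) : ℕ := LW n / ll (ll n)

theorem ev_lll_ge (K : ℕ) : ∀ᶠ n : ℕ in atTop, K ≤ ll (ll n) := by
  obtain ⟨M, hM⟩ := eventually_atTop.1 (ev_ll_ge K)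
  filter_upwards [ev_ll_ge M] with n hn
  exact hM _ hn

theorem ev_mul_lll (k : ℕ) : ∀ᶠ n : ℕ in atTop, k * ll (ll n) ≤ ll n := by
  filter_upwards [ev_lll_ge (4 * k + 4)] with n hn
  have h := ll_sq_le (ll n)
  generalize ll (ll n) = u at *
  generalize ll n = v at *
  have h1 : u * (4 * k + 4) ≤ 4 * (v + 1) := (Nat.mul_le_mul_left u hn).trans h
  have h2 : u * (4 * k + 4) = 4 * (k * u) + 4 * u := by ring
  omega

theorem ZL_le (n : ℕ) : ZL n ≤ n := (Nat.div_le_self _ _).trans (Nat.div_le_self _ _)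

theorem ZL_lt (n : ℕ) : ZL n < gR n * gR n := by
  have h1 : n / ll n < gR n * gR n := Nat.lt_succ_sqrt _
  have h2 : ZL n ≤ LW n := Nat.div_le_self _ _
  unfold LW at h2
  omega

/-- The bound for the contents in the theorem is smaller than the bound in the simulation. -/
theorem le_ZL (C : ℝ) : ∀ᶠ n : ℕ in atTop, ∀ a : ℕ,
    (a : ℝ) ≤ C * ((n : ℝ) + 1) / ((Nat.log 2 n : ℝ) + 1) ^ 2 → a ≤ ZL n := by
  obtain ⟨k, hk⟩ := exists_nat_gt (2 * |C|)
  filter_upwards [ev_mul_lll k, eventually_ge_atTop 1] with n hn h1 a ha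
  have hl : ((ll n : ℕ) : ℝ) = (Nat.log 2 n : ℝ) + 1 := by
    unfold ll
    push_cast
    ring
  rw [← hl] at ha
  have hl0 := ll_pos n
  have hl1 : (0 : ℝ) < ll n := by exact_mod_cast hl0
  have hm0 := ll_pos (ll n)
  unfold ZL LW
  rw [Nat.le_div_iff_mul_le hm0, Nat.le_div_iff_mul_le hl0]
  have h2 : (a : ℝ) * (ll n) ^ 2 ≤ |C| * (2 * n) := by
    rw [le_div_iff₀ (by positivity)] at ha
    have h3 : C * ((n : ℝ) + 1) ≤ |C| * (2 * n) := by
      have h4 : (1 : ℝ) ≤ n := by exact_mod_cast h1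
      exact mul_le_mul (le_abs_self C) (by linarith) (by positivity) (abs_nonneg C)
    exact ha.trans h3
  have h5 : (k : ℝ) * (ll (ll n)) ≤ ll n := by exact_mod_cast hn
  have h6 : ((a : ℝ) * (ll (ll n)) * (ll n)) * (ll n) ≤ (n : ℝ) * (ll n) := by
    have hn0 : (0 : ℝ) ≤ n := Nat.cast_nonneg _
    have hm1 : (0 : ℝ) ≤ ll (ll n) := Nat.cast_nonneg _
    calc ((a : ℝ) * (ll (ll n)) * (ll n)) * (ll n) = ((a : ℝ) * (ll n) ^ 2) * (ll (ll n)) := by
          ring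
      _ ≤ (|C| * (2 * n)) * (ll (ll n)) := mul_le_mul_of_nonneg_right h2 hm1
      _ = (2 * |C|) * (ll (ll n)) * n := by ring
      _ ≤ k * (ll (ll n)) * n := by
          refine mul_le_mul_of_nonneg_right (mul_le_mul_of_nonneg_right hk.le hm1) hn0
      _ ≤ (ll n) * n := mul_le_mul_of_nonneg_right h5 hn0
      _ = _ := by ring
  have h7 : (a : ℝ) * (ll (ll n)) * (ll n) ≤ (n : ℝ) := le_of_mul_le_mul_right h6 hl1
  exact_mod_cast h7

/-- The conditions for the machine on numbers. -/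
theorem ev_par (c : ℕ) : ∀ᶠ n : ℕ in atTop, ∀ S < gR n, ∀ Z ≤ ZL n,
    c * (4 * S + 4 * Z + 4) ≤ LW n ∧ c + LW n + 4 * S + 4 * Z + 4 ≤ 2 ^ (2 * ll n) ∧
      ∀ x, Nat.log 2 x = n → 2 ^ (S + 1) ≤ CR x ∧ 2 ^ (Z + 1) ≤ CR x := by
  filter_upwards [Pool.Agent.Helper69.Ram.PAR4 (2 * c), ev_lll_ge (8 * c),
    eventually_ge_atTop (c + 20)] with n h1 h2 h3 S hS Z hZ
  obtain ⟨h4, h5, h6⟩ := h1 S hS
  refine ⟨?_, ?_, fun x hx => ⟨h6 x hx, pow_le_CR ?_⟩⟩
  · have h7 : ZL n * ll (ll n) ≤ LW n := Nat.div_mul_le_self _ _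
    have h8 : 8 * c * Z ≤ LW n := by
      calc 8 * c * Z ≤ ll (ll n) * ZL n := Nat.mul_le_mul h2 hZ
        _ = ZL n * ll (ll n) := Nat.mul_comm _ _
        _ ≤ LW n := h7
    have h9 : 2 * (c * (4 * S + 4 * Z + 4)) = 2 * c * (4 * S + 4) + 8 * c * Z := by ring
    omega
  · have hl2 := lt_two_pow_ll n
    have h7 : (n + 1) * (n + 1) ≤ 2 ^ (2 * ll n) := by
      rw [two_mul, pow_add]
      exact Nat.mul_le_mul hl2 hl2
    refine le_trans ?_ h7
    have h8 := ZL_le n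
    have h9 : LW n ≤ n := Nat.div_le_self _ _
    have h10 := Pool.Agent.Helper69.Ram.gR_le n
    nlinarith
  · rw [hx]
    have h8 := ZL_le n
    omega

end Pool.Agent.Helper28.Long
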