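import Pool.Agent.Helper28.Long.Mach
import Pool.Agent.Helper59.Ram.MLS
import Pool.Agent.Helper69.Ram.PAR
import Pool.Agent.Helper78.Tok.Sim

/-!
# The machines on numbers form a family computed in linear space
-/

namespace Pool.Agent.Helper28.Long

open Pool.Agent.Helper65.LinSpace Pool.Agent.Helper78.Mpc Pool.Agent.Helper28.Ram Finset
open Pool.Agent.Helper59.Ram (LS_gR LS_CR LS_accN CM_le_CR pow_ll_le)
open Pool.Agent.Helper78.Tok (CT Par)

variable {α : Type} [Ctx α]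

/-- The machine on numbers for inputs with the number `x`, with admissible parameters. -/
def machX (eA eN eW ini B0 st x y S Z : ℕ) : Pool.Agent.Helper78.Tok.Mach :=
  machL eA eN eW ini B0 st (LW (Nat.log 2 x)) (2 ^ (2 * ll (Nat.log 2 x))) (CR x) x y
    (gR (Nat.log 2 x)) (min S (gR (Nat.log 2 x) - 1))
    (min Z (gR (Nat.log 2 x) * gR (Nat.log 2 x) - 1))

theorem gR_pos (n : ℕ) : 0 < gR n := Nat.succ_pos _

theorem gR_sq_le (n : ℕ) : gR n * gR n ≤ 2 * n + 8 := by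
  have h1 := Pool.Agent.Helper69.Ram.gR_sq n
  have h2 : n / ll n ≤ n := Nat.div_le_self _ _
  have h3 : gR n * gR n ≤ (gR n + 1) * (gR n + 1) := Nat.mul_le_mul (by omega) (by omega)
  omega

theorem pow_le_CR {x t : ℕ} (h : t ≤ 24 * (Nat.log 2 x + 1)) : 2 ^ t ≤ CR x :=
  (two_pow_le_CM h).trans (CM_le_CR x)

theorem CR_le_CT (x : ℕ) : CR x ≤ CT x := by
  unfold CR CT
  exact Nat.pow_le_pow_right (by omega) (by norm_num)

theorem par_machX (eA eN eW ini B0 st x y S Z : ℕ) :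
    Par (Nat.log 2 x) (machX eA eN eW ini B0 st x y S Z) := by
  have h0 := gR_pos (Nat.log 2 x)
  have h2 : 0 < gR (Nat.log 2 x) * gR (Nat.log 2 x) := Nat.mul_pos h0 h0
  refine ⟨?_, rfl, rfl, ?_⟩
  · show min S (gR (Nat.log 2 x) - 1) + 1 ≤ gR (Nat.log 2 x)
    have h1 : min S (gR (Nat.log 2 x) - 1) ≤ gR (Nat.log 2 x) - 1 := min_le_right _ _
    omega
  · show min Z (gR (Nat.log 2 x) * gR (Nat.log 2 x) - 1) + 1 ≤ _
    have h1 : min Z (gR (Nat.log 2 x) * gR (Nat.log 2 x) - 1) ≤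
      gR (Nat.log 2 x) * gR (Nat.log 2 x) - 1 := min_le_right _ _
    omega

theorem ok_machX (eA eN eW ini B0 st x y S Z : ℕ) :
    (machX eA eN eW ini B0 st x y S Z).Ok := by
  refine ⟨Nat.succ_pos _, ?_, ?_, ?_, ?_, ?_, ?_⟩
  · show 0 < gR (Nat.log 2 x) / (min S (gR (Nat.log 2 x) - 1) + 1)
    have h1 := gR_pos (Nat.log 2 x)
    have h2 : min S (gR (Nat.log 2 x) - 1) ≤ gR (Nat.log 2 x) - 1 := min_le_right _ _
    exact Nat.div_pos (by omega) (by omega)
  · intro q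
    exact lt_of_le_of_lt (Nat.sub_le _ _) (capN_lt _ _)
  · intro q v
    exact capN_lt _ _
  · intro q v
    exact capN_lt _ _
  · exact capN_lt _ _
  · intro a
    exact capN_lt _ _

theorem lsm_machX (P : Pool.Agent.Helper78.Tok.Parts) {eA eN eW ini B0 st x y S Z : α → ℕ}
    (heA : LS eA) (heN : LS eN) (heW : LS eW) (hini : LS ini) (hB0 : LS B0) (hst : LS st)
    (hx : LS x) (hy : LS y) (hS : LS S) (hZ : LS Z) :
    Pool.Agent.Helper78.Tok.LSM (fun z => machX (eA z) (eN z) (eW z) (ini z) (B0 z) (st z) (x z)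
      (y z) (S z) (Z z)) (fun z => CT (x z)) := by
  have hn : LS (fun z => Nat.log 2 (x z)) := LS.log2 hx
  have hg : LS (fun z => gR (Nat.log 2 (x z))) := LS_gR hn
  have hS' : LS (fun z => min (S z) (gR (Nat.log 2 (x z)) - 1)) :=
    LS.min hS (LS.sub hg (LS.const 1))
  have hZ' : LS (fun z => min (Z z) (gR (Nat.log 2 (x z)) * gR (Nat.log 2 (x z)) - 1)) :=
    LS.min hZ (LS.sub (LS.mul hg hg) (LS.const 1))
  have hC : LS (fun z => CR (x z)) := LS_CR hx
  have hCT : LS (fun z => CT (x z)) := by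
    unfold CT
    exact (LS.add hx (LS.const 2)).pow_const 20000
  have hΛ : LS (fun z => LW (Nat.log 2 (x z))) := LS.LW hn
  have hβ : LS (fun z => 2 ^ (2 * ll (Nat.log 2 (x z)))) :=
    LS.pow_of_le (f := fun _ => 2) (by fun_prop) (by fun_prop) hC fun z => pow_ll_le (x z)
  have hβ0 : ∀ z, 0 < 2 ^ (2 * ll (Nat.log 2 (x z))) := fun z => by positivity
  have hb : ∀ z, (2 ^ (2 * ll (Nat.log 2 (x z)))) ^ LW (Nat.log 2 (x z)) ≤ CR (x z) :=
    fun z => (beta_pow_le (x z)).trans (CM_le_CR (x z))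
  -- functions of a further argument, with outputs of length at most `T`
  have hfn : ∀ {β : Type} [Ctx β] (π : β → α) (e T : α → ℕ) (u : β → ℕ), LS π → LS e → LS T →
      (∀ z, 2 ^ (T z + 1) ≤ CR (x z)) → LS u →
      LS (fun b => fnN (e (π b)) (T (π b)) (LW (Nat.log 2 (x (π b))))
        (2 ^ (2 * ll (Nat.log 2 (x (π b))))) (CR (x (π b))) (u b)) := by
    intro β _ π e T u hπ he hT hTC hu
    have h1 : LS (fun b => e (π b)) := LS.comp (g := e) he hπ
    have h2 : LS (fun b => T (π b)) := LS.comp (g := T) hT hπ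
    have h3 : LS (fun b => LW (Nat.log 2 (x (π b)))) :=
      LS.comp (g := fun z => LW (Nat.log 2 (x z))) hΛ hπ
    have h4 : LS (fun b => 2 ^ (2 * ll (Nat.log 2 (x (π b))))) :=
      LS.comp (g := fun z => 2 ^ (2 * ll (Nat.log 2 (x z)))) hβ hπ
    have h5 : LS (fun b => CR (x (π b))) := LS.comp (g := fun z => CR (x z)) hC hπ
    exact LS.fnN h1 h2 h3 h4 h5 hu h5 (fun b => hβ0 (π b)) (fun b => hb (π b))
      (fun b => hTC (π b))
  have hcap : ∀ {β : Type} [Ctx β] (π : β → α) (T : α → ℕ) (u : β → ℕ), LS π → LS T → LS u →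
      LS (fun b => capN (T (π b)) (u b)) := by
    intro β _ π T u hπ hT hu
    exact LS.capN (LS.comp (g := T) hT hπ) hu
  have hSC : ∀ z, 2 ^ (min (S z) (gR (Nat.log 2 (x z)) - 1) + 1) ≤ CR (x z) := fun z =>
    Pool.Agent.Helper59.Ram.pow_S_le (x z) (S z)
  have hZC : ∀ z, 2 ^ (min (Z z) (gR (Nat.log 2 (x z)) * gR (Nat.log 2 (x z)) - 1) + 1) ≤
      CR (x z) := by
    intro z
    refine pow_le_CR ?_
    have h1 : min (Z z) (gR (Nat.log 2 (x z)) * gR (Nat.log 2 (x z)) - 1) ≤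
      gR (Nat.log 2 (x z)) * gR (Nat.log 2 (x z)) - 1 := min_le_right _ _
    have h2 := gR_sq_le (Nat.log 2 (x z))
    omega
  refine ⟨?_, ?_, ?_, hg, ?_, ?_, ?_, ?_, ?_, hCT, fun z => ok_machX _ _ _ _ _ _ _ _ _ _,
    fun z => Pool.Agent.Helper78.Tok.nv_le P (ok_machX _ _ _ _ _ _ _ _ _ _)
      (par_machX _ _ _ _ _ _ _ _ _ _)⟩
  · show LS (fun z => min (S z) (gR (Nat.log 2 (x z)) - 1) + 1)
    exact LS.add hS' (LS.const 1)
  · show LS (fun z => min (Z z) (gR (Nat.log 2 (x z)) * gR (Nat.log 2 (x z)) - 1) + 1)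
    exact LS.add hZ' (LS.const 1)
  · show LS (fun z => gR (Nat.log 2 (x z)) / (min (S z) (gR (Nat.log 2 (x z)) - 1) + 1))
    exact LS.div hg (LS.add hS' (LS.const 1))
  · -- A
    have h1 : LS (fun b : α × ℕ => capN (min (S b.1) (gR (Nat.log 2 (x b.1)) - 1))
        (fnN (eA b.1) (min (S b.1) (gR (Nat.log 2 (x b.1)) - 1)) (LW (Nat.log 2 (x b.1)))
          (2 ^ (2 * ll (Nat.log 2 (x b.1)))) (CR (x b.1)) b.2)) :=
      hcap (fun b : α × ℕ => b.1) _ _ (by fun_prop) hS'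
        (hfn (fun b : α × ℕ => b.1) eA _ (fun b => b.2) (by fun_prop) heA hS' hSC (by fun_prop))
    exact LS.sub h1 (LS.pow_log h1)
  · -- N
    have h0 := hfn (fun b : α × ℕ × ℕ => b.1) eA _ (fun b => b.2.1) (by fun_prop) heA hS' hSC
      (by fun_prop)
    have hc : LS (fun b : α × ℕ × ℕ => catN (sdN b.2.1) b.2.2) := by fun_prop
    have h1 := hfn (fun b : α × ℕ × ℕ => b.1) eW _ (fun b => catN (sdN b.2.1) b.2.2)
      (by fun_prop) heW hZ' hZC hc
    have h2 := hfn (fun b : α × ℕ × ℕ => b.1) eN _ (fun b => catN (sdN b.2.1) b.2.2)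
      (by fun_prop) heN hS' hSC hc
    have hq : LS (fun b : α × ℕ × ℕ => b.2.1) := by fun_prop
    have hv : LS (fun b : α × ℕ × ℕ => b.2.2) := by fun_prop
    exact hcap (fun b : α × ℕ × ℕ => b.1) _ _ (by fun_prop) hS'
      (LS.ifz (LS_accN hq) (LS.ifz (LS.mul h0 (LS.mul hv h1)) (LS.const 0) h2) hq)
  · -- W
    have hc : LS (fun b : α × ℕ × ℕ => catN (sdN b.2.1) b.2.2) := by fun_prop
    have h1 := hfn (fun b : α × ℕ × ℕ => b.1) eW _ (fun b => catN (sdN b.2.1) b.2.2)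
      (by fun_prop) heW hZ' hZC hc
    have hq : LS (fun b : α × ℕ × ℕ => b.2.1) := by fun_prop
    have hv : LS (fun b : α × ℕ × ℕ => b.2.2) := by fun_prop
    exact hcap (fun b : α × ℕ × ℕ => b.1) _ _ (by fun_prop) hZ' (LS.ifz (LS_accN hq) h1 hv)
  · -- q0
    exact LS.capN hS' hst
  · -- M0
    have ha : LS (fun b : α × ℕ => b.2) := by fun_prop
    have hx' : LS (fun b : α × ℕ => x b.1) := by fun_prop
    have hy' : LS (fun b : α × ℕ => y b.1) := by fun_prop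
    have hd : LS (fun b : α × ℕ => dig (B0 b.1) (ini b.1)
        (3 * letN (x b.1) b.2 + letN (y b.1) b.2)) := by
      fun_prop
    exact hcap (fun b : α × ℕ => b.1) _ _ (by fun_prop) hZ' hd

end Pool.Agent.Helper28.Long
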