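import Pool.Agent.Helper28.Long.MCor
import Pool.Agent.Helper28.Long.Par
import Pool.Agent.Helper28.Gen.Main

/-!
# Random access machines with long registers are weaker than linear space
-/

namespace Pool.Agent.Helper28.Long

open Pool.Agent.Helper65.LinSpace Pool.Agent.Helper78.Mpc Pool.Agent.Helper28.Ram Finset Filter
open Pool.Agent.Helper78.Tok (pR_prime JT ls_simT simT_eq)

variable {α : Type} [Ctx α]

theorem LS.ZL {n : α → ℕ} (hn : LS n) : LS (fun z => ZL (n z)) := by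
  unfold Long.ZL
  have h1 : LS (fun z => LW (n z)) := LS.LW hn
  have h2 : LS (fun z => ll (ll (n z))) := by
    unfold ll
    fun_prop
  exact LS.div h1 h2

/-- The simulation: `1` if the machine with the code `e` accepts, with the bounds coded by `T`. -/
noncomputable def accL (e x y T : ℕ) : ℕ :=
  accN ((machX (Nat.unpair e).1 (Nat.unpair (Nat.unpair e).2).1
      (Nat.unpair (Nat.unpair (Nat.unpair e).2).2).1
      (Nat.unpair (Nat.unpair (Nat.unpair (Nat.unpair e).2).2).2).1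
      (Nat.unpair (Nat.unpair (Nat.unpair (Nat.unpair (Nat.unpair e).2).2).2).2).1
      (Nat.unpair (Nat.unpair (Nat.unpair (Nat.unpair (Nat.unpair e).2).2).2).2).2 x y
      (T / (ZL (Nat.log 2 x) + 1)) (T % (ZL (Nat.log 2 x) + 1))).sim (pR (Nat.log 2 x))
        (JT (Nat.log 2 x)) (gR (Nat.log 2 x)))

/-- The number of codes of bounds. -/
def NL (x : ℕ) : ℕ := gR (Nat.log 2 x) * (ZL (Nat.log 2 x) + 1)

theorem LS.NL : LS Long.NL := by
  unfold Long.NL
  have h : LS (fun x => Nat.log 2 x) := by fun_prop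
  exact LS.mul (Pool.Agent.Helper59.Ram.LS_gR h) (LS.add (LS.ZL h) (LS.const 1))

theorem LS.accL (P : Pool.Agent.Helper78.Tok.Parts) :
    LS (fun z : ℕ × ℕ × ℕ × ℕ => accL z.1 z.2.1 z.2.2.1 z.2.2.2) := by
  unfold Long.accL
  refine Pool.Agent.Helper59.Ram.LS_accN ?_
  have hx : LS (fun z : ℕ × ℕ × ℕ × ℕ => z.2.1) := by fun_prop
  have hZ : LS (fun z : ℕ × ℕ × ℕ × ℕ => Long.ZL (Nat.log 2 z.2.1)) := LS.ZL (by fun_prop)
  refine ls_simT P hx (lsm_machX P ?_ ?_ ?_ ?_ ?_ ?_ hx ?_ ?_ ?_) fun z =>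
    par_machX _ _ _ _ _ _ _ _ _ _
  · fun_prop
  · fun_prop
  · fun_prop
  · fun_prop
  · fun_prop
  · fun_prop
  · fun_prop
  · exact LS.div (by fun_prop) (LS.add hZ (LS.const 1))
  · exact LS.mod (by fun_prop) (LS.add hZ (LS.const 1))

/-- Every machine has a code. -/
theorem exists_acc (P : Pool.Agent.Helper78.Tok.Parts) (A : RAM) : ∃ e n₀ : ℕ,
    ∀ w y : List Bool, n₀ ≤ w.length →
    (∀ T < NL (num w), accL e (num w) (num y) T ≠ 0 → ∃ r, A.AcceptsAt w y r) ∧
    ∀ r s a, s < gR w.length → a ≤ ZL w.length →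
      r ≤ gR w.length * (gR w.length * (gR w.length / (s + 1))) →
      A.FitsL w y r s a → A.AcceptsAt w y r →
      ∃ T < NL (num w), accL e (num w) (num y) T ≠ 0 := by
  obtain ⟨eA, eN, eW, ini, B0, st, c, hA⟩ := mcor A
  obtain ⟨n₀, hn₀⟩ := eventually_atTop.1 (ev_par c)
  refine ⟨Nat.pair eA (Nat.pair eN (Nat.pair eW (Nat.pair ini (Nat.pair B0 st)))), n₀,
    fun w y hw => ?_⟩
  have hlog : Nat.log 2 (num w) = w.length := Pool.Agent.Helper65.LinSpace.log_num w
  have key : ∀ S Z : ℕ, S < gR w.length → Z ≤ ZL w.length →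
      (machX eA eN eW ini B0 st (num w) (num y) S Z).sim (pR w.length) (JT w.length)
        (gR w.length) = ((machL eA eN eW ini B0 st (LW w.length) (2 ^ (2 * ll w.length))
          (CR (num w)) (num w) (num y) (gR w.length) S Z).conf
            (gR w.length * (gR w.length * (gR w.length / (S + 1))))).1 := by
    intro S Z hS hZ
    have h := simT_eq P (ok_machX eA eN eW ini B0 st (num w) (num y) S Z)
      (par_machX eA eN eW ini B0 st (num w) (num y) S Z)
    rw [hlog] at h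
    rw [h]
    have h1 : min S (gR w.length - 1) = S := min_eq_left (by omega)
    have h2 : min Z (gR w.length * gR w.length - 1) = Z := by
      have := ZL_lt w.length
      exact min_eq_left (by omega)
    show (Pool.Agent.Helper78.Tok.Mach.conf (machX _ _ _ _ _ _ _ _ _ _) (gR w.length *
      (gR w.length * (gR w.length / (min S (gR (Nat.log 2 (num w)) - 1) + 1))))).1 = _
    unfold machX
    rw [hlog, h1, h2]
  have hNL : NL (num w) = gR w.length * (ZL w.length + 1) := by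
    unfold NL
    rw [hlog]
  have hacc : ∀ T, accL (Nat.pair eA (Nat.pair eN (Nat.pair eW (Nat.pair ini (Nat.pair B0 st)))))
      (num w) (num y) T = accN ((machX eA eN eW ini B0 st (num w) (num y)
        (T / (ZL w.length + 1)) (T % (ZL w.length + 1))).sim (pR w.length) (JT w.length)
          (gR w.length)) := by
    intro T
    unfold accL
    simp only [Nat.unpair_pair, hlog]
  constructor
  · intro T hT hne
    rw [hNL] at hT
    have hS : T / (ZL w.length + 1) < gR w.length := by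
      rw [Nat.div_lt_iff_lt_mul (by omega)]
      exact hT
    have hZ : T % (ZL w.length + 1) ≤ ZL w.length := by
      have := Nat.mod_lt T (show 0 < ZL w.length + 1 by omega)
      omega
    obtain ⟨h1, h2, h3⟩ := hn₀ w.length hw _ hS _ hZ
    obtain ⟨h4, h5⟩ := h3 _ hlog
    rw [hacc, key _ _ hS hZ] at hne
    refine (hA w y _ _ (LW w.length) (2 ^ (2 * ll w.length)) (CR (num w)) (gR w.length) h1 h2
      h4 h5).1 (gR w.length * (gR w.length * (gR w.length / (T / (ZL w.length + 1) + 1)))) ?_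
    have := accN_le ((machL eA eN eW ini B0 st (LW w.length) (2 ^ (2 * ll w.length))
      (CR (num w)) (num w) (num y) (gR w.length) (T / (ZL w.length + 1))
        (T % (ZL w.length + 1))).conf (gR w.length * (gR w.length * (gR w.length /
          (T / (ZL w.length + 1) + 1))))).1
    exact le_antisymm this (Nat.pos_of_ne_zero hne)
  · intro r s a hs ha hr hfit hacc'
    refine ⟨s * (ZL w.length + 1) + a, ?_, ?_⟩
    · rw [hNL]
      calc s * (ZL w.length + 1) + a < s * (ZL w.length + 1) + (ZL w.length + 1) := by omega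
        _ = (s + 1) * (ZL w.length + 1) := by ring
        _ ≤ _ := Nat.mul_le_mul_right _ hs
    · have e1 : (s * (ZL w.length + 1) + a) / (ZL w.length + 1) = s := by
        rw [mul_comm, Nat.mul_add_div (by omega), Nat.div_eq_of_lt (by omega), add_zero]
      have e2 : (s * (ZL w.length + 1) + a) % (ZL w.length + 1) = a := by
        rw [mul_comm, Nat.mul_add_mod, Nat.mod_eq_of_lt (by omega)]
      obtain ⟨h1, h2, h3⟩ := hn₀ w.length hw _ hs _ ha
      obtain ⟨h4, h5⟩ := h3 _ hlog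
      rw [hacc, e1, e2, key _ _ hs ha, (hA w y _ _ (LW w.length) (2 ^ (2 * ll w.length))
        (CR (num w)) (gR w.length) h1 h2 h4 h5).2 r _ hr hfit hacc']
      exact one_ne_zero

/-- An accepting state is not the empty word. -/
theorem one_le_of_accepts {A : RAM} {w y : List Bool} {r s a : ℕ} (hf : A.FitsL w y r s a)
    (ha : A.AcceptsAt w y r) : 1 ≤ s := by
  have h1 := (hf r le_rfl).1
  unfold RAM.AcceptsAt at ha
  rcases hq : (A.conf w y r).1 with _ | ⟨b, q⟩
  · rw [hq] at ha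
    simp at ha
  · rw [hq] at h1
    simp only [List.length_cons] at h1
    omega

/-- The machine accepts within the bounds of the theorem. -/
def GoodL (A : RAM) (C : ℝ) (w y : List Bool) : Prop :=
  ∃ (r s a : ℕ), (r : ℝ) * s ≤ C * ((w.length : ℝ) + 1) ^ ((3 : ℝ) / 2) /
      ((Nat.log 2 w.length : ℝ) + 1) ^ 2 ∧
    (s : ℝ) ≤ C * ((w.length : ℝ) + 1) ^ ((1 : ℝ) / 2) / ((Nat.log 2 w.length : ℝ) + 1) ∧
    (a : ℝ) ≤ C * ((w.length : ℝ) + 1) / ((Nat.log 2 w.length : ℝ) + 1) ^ 2 ∧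
    A.FitsL w y r s a ∧ A.AcceptsAt w y r

theorem exists_good (P : Pool.Agent.Helper78.Tok.Parts) (A : RAM) (C : ℝ) : ∃ e n₀ : ℕ,
    ∀ w y : List Bool, n₀ ≤ w.length →
    (∀ T < NL (num w), accL e (num w) (num y) T ≠ 0 → ∃ r, A.AcceptsAt w y r) ∧
    (GoodL A C w y → ∃ T < NL (num w), accL e (num w) (num y) T ≠ 0) := by
  obtain ⟨e, n₀, he⟩ := exists_acc P A
  obtain ⟨n₁, hn₁⟩ := eventually_atTop.1 (par3 C)
  obtain ⟨n₂, hn₂⟩ := eventually_atTop.1 (le_ZL C)
  refine ⟨e, n₀ + n₁ + n₂, fun w y hw => ?_⟩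
  obtain ⟨h1, h2⟩ := he w y (by omega)
  refine ⟨h1, ?_⟩
  rintro ⟨r, s, a, hr, hs, ha, hfit, hacc⟩
  obtain ⟨h3, h4⟩ := hn₁ w.length (by omega) r s (one_le_of_accepts hfit hacc) hr hs
  exact h2 r s a h3 (hn₂ w.length (by omega) a ha) h4 hfit hacc

/-- **Average-case hardness for random access machines with long registers.** -/
theorem long_main (P : Pool.Agent.Helper78.Tok.Parts) (c : ℕ) :
    ∃ (L : Set (List Bool)) (s : ℕ → List Bool), DLINSPACE L ∧
      (∀ n, (s n).length = n) ∧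
      (∀ w, w ∈ L ↔ Odd ((List.zipWith and (s w.length) w).count true)) ∧
      ∀ (A : RAM) (C : ℝ), ∃ c' : ℝ, ∀ (n : ℕ) (α : List Bool), ∀ M, M = L ∨ M = Lᶜ →
        ({w : List Bool | w.length = n ∧
          (∀ v r, A.AcceptsAt w (α ++ v) r → w ∈ M) ∧
          (w ∈ M → ∃ (v : List Bool) (r t a : ℕ), v.length ≤ c * n ∧
            (r : ℝ) * t ≤ C * ((n : ℝ) + 1) ^ ((3 : ℝ) / 2) / ((Nat.log 2 n : ℝ) + 1) ^ 2 ∧
            (t : ℝ) ≤ C * ((n : ℝ) + 1) ^ ((1 : ℝ) / 2) / ((Nat.log 2 n : ℝ) + 1) ∧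
            (a : ℝ) ≤ C * ((n : ℝ) + 1) / ((Nat.log 2 n : ℝ) + 1) ^ 2 ∧
            A.FitsL w (α ++ v) r t a ∧ A.AcceptsAt w (α ++ v) r)}.ncard : ℝ) ≤
          2 ^ n / 2 + c' * ((min α.length (n - α.length) : ℕ) + 1) *
            2 ^ (((n : ℝ) + α.length) / 2) := by
  obtain ⟨L, s, h1, h2, h3, h4⟩ := Pool.Agent.Helper28.Gen.avg_main accL NL (LS.accL P) LS.NL c
  refine ⟨L, s, h1, h2, h3, fun A C => ?_⟩
  obtain ⟨c', hc'⟩ := h4 (fun w y => ∃ r, A.AcceptsAt w y r) (GoodL A C) (exists_good P A C)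
  refine ⟨c', fun n α M hM => ?_⟩
  refine le_trans ?_ (hc' n α M hM)
  have hfin : ({w : List Bool | w.length = n ∧
      (∀ v, (∃ r, A.AcceptsAt w (α ++ v) r) → w ∈ M) ∧
      (w ∈ M → ∃ v : List Bool, v.length ≤ c * n ∧ GoodL A C w (α ++ v))}).Finite :=
    (List.finite_length_eq Bool n).subset fun w hw => hw.1
  refine Nat.cast_le.2 (Set.ncard_le_ncard ?_ hfin)
  rintro w ⟨hw, hw1, hw2⟩
  refine ⟨hw, fun v ⟨r, hr⟩ => hw1 v r hr, fun h => ?_⟩
  obtain ⟨v, r, t, a, hv, hr, ht, ha, hfit, hacc⟩ := hw2 h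
  subst hw
  exact ⟨v, hv, r, t, a, hr, ht, ha, hfit, hacc⟩

/-- Languages accepted by fast random access machines with long registers are in linear space. -/
theorem long_lin (P : Pool.Agent.Helper78.Tok.Parts) (c : ℕ) (A : RAM) (L : Set (List Bool))
    (C : ℝ) (h1 : ∀ w y r, A.AcceptsAt w y r → w ∈ L)
    (h2 : ∀ w ∈ L, ∃ (y : List Bool) (r t a : ℕ), y.length ≤ c * w.length ∧
      (r : ℝ) * t ≤ C * ((w.length : ℝ) + 1) ^ ((3 : ℝ) / 2) /
        ((Nat.log 2 w.length : ℝ) + 1) ^ 2 ∧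
      (t : ℝ) ≤ C * ((w.length : ℝ) + 1) ^ ((1 : ℝ) / 2) / ((Nat.log 2 w.length : ℝ) + 1) ∧
      (a : ℝ) ≤ C * ((w.length : ℝ) + 1) / ((Nat.log 2 w.length : ℝ) + 1) ^ 2 ∧
      A.FitsL w y r t a ∧ A.AcceptsAt w y r) : DLINSPACE L := by
  refine Pool.Agent.Helper28.Gen.lin_main accL NL (LS.accL P) LS.NL c L
    (fun w y => ∃ r, A.AcceptsAt w y r) (GoodL A C) (exists_good P A C)
    (fun w y ⟨r, hr⟩ => h1 w y r hr) fun w hw => ?_
  obtain ⟨y, r, t, a, hy, hr, ht, ha, hfit, hacc⟩ := h2 w hw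
  exact ⟨y, hy, r, t, a, hr, ht, ha, hfit, hacc⟩

end Pool.Agent.Helper28.Long
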