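import Pool.Agent.Helper28.Long.Mach
import Pool.Agent.Helper11.Ram.MCOR
import Pool.Agent.Helper78.Mpc.MMain

/-!
# A random access machine with long registers and its machine on numbers

This is the proof of `Helper11/Ram/MCOR.lean`, for two bounds for the lengths of words.
-/

namespace Pool.Agent.Helper28.Long

open Pool.Agent.Helper65.LinSpace Pool.Agent.Helper78.Mpc Pool.Agent.Helper28.Ram Finset
open Pool.Agent.Helper11.Ram (num_eq_bval capN_capN capN_zero capN_num_le accN_zero
  catN_zero_left sdN_zero)


section

variable {A : RAM} {eA eN eW ini B0 Λ β B g S Z : ℕ} {w y : List Bool}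

theorem addr_eq (hA : Good A.addr eA S Λ β B (2 * S + Z + 1)) {q : List Bool} (hq : q.length ≤ S)
    (h : (A.addr q).length ≤ S) :
    (machL eA eN eW ini B0 (num A.start) Λ β B (num w) (num y) g S Z).A (num q) =
      bval (A.addr q) := by
  show capN S (fnN eA S Λ β B (num q)) - 2 ^ Nat.log 2 (capN S (fnN eA S Λ β B (num q))) = _
  rw [hA q (by omega), if_pos h, capN_num h, log_num, num_eq_bval]
  omega

theorem N_acc {q v : ℕ} (hq : accN q = 1) (hc : capN S q = q) :
    (machL eA eN eW ini B0 (num A.start) Λ β B (num w) (num y) g S Z).N q v = q := by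
  show capN S (ifz (accN q) _ q) = q
  rw [hq, ifz_ne one_ne_zero, hc]

theorem W_acc {q v : ℕ} (hq : accN q = 1) (hc : capN Z v = v) :
    (machL eA eN eW ini B0 (num A.start) Λ β B (num w) (num y) g S Z).W q v = v := by
  show capN Z (ifz (accN q) _ v) = v
  rw [hq, ifz_ne one_ne_zero, hc]

theorem N_nacc {q v : ℕ} (hq : accN q ≠ 1) :
    (machL eA eN eW ini B0 (num A.start) Λ β B (num w) (num y) g S Z).N q v =
      capN S (ifz (fnN eA S Λ β B q * (v * fnN eW Z Λ β B (catN (sdN q) v))) 0
        (fnN eN S Λ β B (catN (sdN q) v))) := by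
  have h0 : accN q = 0 := by
    have := accN_le q
    omega
  show capN S (ifz (accN q) _ q) = _
  rw [h0, ifz_zero]

theorem W_nacc {q v : ℕ} (hq : accN q ≠ 1) :
    (machL eA eN eW ini B0 (num A.start) Λ β B (num w) (num y) g S Z).W q v =
      capN Z (fnN eW Z Λ β B (catN (sdN q) v)) := by
  have h0 : accN q = 0 := by
    have := accN_le q
    omega
  show capN Z (ifz (accN q) _ v) = _
  rw [h0, ifz_zero]

theorem conf_zero (hini : ∀ a b, dig B0 ini (3 * codeO a + codeO b) = num (A.init a b)) :
    (machL eA eN eW ini B0 (num A.start) Λ β B (num w) (num y) g S Z).conf 0 =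
      (capN S (num A.start), fun j => capN Z (num (A.init w[j]? y[j]?))) := by
  show (capN S (num A.start), fun j => capN Z (dig B0 ini (3 * letN (num w) j +
    letN (num y) j))) = _
  congr 1
  funext j
  rw [letN_num, letN_num, hini]

theorem conf_succ (m : Pool.Agent.Helper78.Tok.Mach) (t : ℕ) : m.conf (t + 1) =
    (m.N (m.conf t).1 ((m.conf t).2 (m.A (m.conf t).1)),
      Function.update (m.conf t).2 (m.A (m.conf t).1)
        (m.W (m.conf t).1 ((m.conf t).2 (m.A (m.conf t).1)))) := rfl

theorem cap_state (t : ℕ) :
    capN S ((machL eA eN eW ini B0 (num A.start) Λ β B (num w) (num y) g S Z).conf t).1 =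
      ((machL eA eN eW ini B0 (num A.start) Λ β B (num w) (num y) g S Z).conf t).1 := by
  rcases t with _ | t
  · exact capN_capN S _
  · rw [conf_succ]
    exact capN_capN S _

/-- An accepting state is kept. -/
theorem acc_keep {t : ℕ}
    (h : accN ((machL eA eN eW ini B0 (num A.start) Λ β B (num w) (num y) g S Z).conf t).1 = 1) :
    ∀ T, t ≤ T →
      accN ((machL eA eN eW ini B0 (num A.start) Λ β B (num w) (num y) g S Z).conf T).1 = 1 := by
  intro T hT
  induction T, hT using Nat.le_induction with
  | base => exact h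
  | succ T _ ih =>
    rw [conf_succ]
    show accN ((machL eA eN eW ini B0 (num A.start) Λ β B (num w) (num y) g S Z).N _ _) = 1
    rw [N_acc ih (cap_state T)]
    exact ih

theorem inv (hA : Good A.addr eA S Λ β B (2 * S + Z + 1)) (hN : Good A.next eN S Λ β B (2 * S + Z + 1))
    (hW : Good A.write eW Z Λ β B (2 * S + Z + 1))
    (hini : ∀ a b, dig B0 ini (3 * codeO a + codeO b) = num (A.init a b)) (t : ℕ) :
    ((machL eA eN eW ini B0 (num A.start) Λ β B (num w) (num y) g S Z).conf t).1 = 0 ∨
    ∃ τ, (A.conf w y τ).1.length ≤ S ∧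
      ((machL eA eN eW ini B0 (num A.start) Λ β B (num w) (num y) g S Z).conf t).1 =
        num (A.conf w y τ).1 ∧
      ∀ j, ((machL eA eN eW ini B0 (num A.start) Λ β B (num w) (num y) g S Z).conf t).2 j =
        capN Z (num ((A.conf w y τ).2 j)) := by
  induction t with
  | zero =>
    rw [conf_zero hini]
    by_cases h : capN S (num A.start) = 0
    · exact Or.inl h
    · exact Or.inr ⟨0, capN_num_le h, capN_ne h, fun j => rfl⟩
  | succ t ih =>
    rw [conf_succ]
    set m := machL eA eN eW ini B0 (num A.start) Λ β B (num w) (num y) g S Z with hm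
    rcases ih with h0 | ⟨τ, hlen, hq, hM⟩
    · left
      show m.N (m.conf t).1 _ = 0
      rw [h0, hm, N_nacc (by rw [accN_zero]; norm_num), fnN_zero, zero_mul, ifz_zero, capN_zero]
    · set q := (A.conf w y τ).1 with hqdef
      set M := (A.conf w y τ).2 with hMdef
      by_cases hacc : accN (num q) = 1
      · right
        refine ⟨τ, hlen, ?_, ?_⟩
        · show m.N (m.conf t).1 _ = num q
          rw [hq]
          exact N_acc hacc (capN_num hlen)
        · intro j
          show Function.update (m.conf t).2 (m.A (m.conf t).1)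
            (m.W (m.conf t).1 ((m.conf t).2 (m.A (m.conf t).1))) j = _
          have h1 : m.W (m.conf t).1 ((m.conf t).2 (m.A (m.conf t).1)) =
              (m.conf t).2 (m.A (m.conf t).1) := by
            rw [hq]
            refine W_acc hacc ?_
            rw [hM, capN_capN]
          rw [h1, Function.update_eq_self]
          exact hM j
      · by_cases hz : m.N (m.conf t).1 ((m.conf t).2 (m.A (m.conf t).1)) = 0
        · exact Or.inl hz
        · right
          set v := (m.conf t).2 (m.A (m.conf t).1) with hv
          have hz' := hz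
          rw [hq, hm, N_nacc hacc] at hz'
          have hz1 := capN_ne hz'
          rw [hz1] at hz'
          have hp : fnN eA S Λ β B (num q) *
              (v * fnN eW Z Λ β B (catN (sdN (num q)) v)) ≠ 0 := by
            intro h
            rw [h, ifz_zero] at hz'
            exact hz' rfl
          rw [ifz_ne hp] at hz'
          have hpA : fnN eA S Λ β B (num q) ≠ 0 := left_ne_zero_of_mul hp
          have hpv : v ≠ 0 := left_ne_zero_of_mul (right_ne_zero_of_mul hp)
          have hpW : fnN eW Z Λ β B (catN (sdN (num q)) v) ≠ 0 :=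
            right_ne_zero_of_mul (right_ne_zero_of_mul hp)
          have hAlen : (A.addr q).length ≤ S := by
            by_contra hcon
            apply hpA
            rw [hA q (by omega), if_neg hcon]
          have haddr : m.A (m.conf t).1 = bval (A.addr q) := by
            rw [hq]
            exact addr_eq hA hlen hAlen
          have hv1 : v = capN Z (num (M (bval (A.addr q)))) := by
            rw [hv, haddr]
            exact hM _
          have hMlen : (M (bval (A.addr q))).length ≤ Z := by
            rw [hv1] at hpv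
            exact capN_num_le hpv
          have hv2 : v = num (M (bval (A.addr q))) := by rw [hv1, capN_num hMlen]
          have hcat : catN (sdN (num q)) v = num (sd q ++ M (bval (A.addr q))) := by
            rw [sdN_num, hv2, catN_num]
          have hcl : (sd q ++ M (bval (A.addr q))).length ≤ 2 * S + Z + 1 := by
            rw [List.length_append, length_sd]
            omega
          rw [hcat] at hpW hz'
          have hWlen : (A.write (sd q ++ M (bval (A.addr q)))).length ≤ Z := by
            by_contra hcon
            apply hpW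
            rw [hW _ hcl, if_neg hcon]
          have hNlen : (A.next (sd q ++ M (bval (A.addr q)))).length ≤ S := by
            by_contra hcon
            apply hz'
            rw [hN _ hcl, if_neg hcon]
          refine ⟨τ + 1, hNlen, ?_, ?_⟩
          · show m.N (m.conf t).1 v = num (A.next (sd q ++ M (bval (A.addr q))))
            rw [hq, hm, N_nacc hacc, ifz_ne hp, hcat, hN _ hcl, if_pos hNlen, capN_num hNlen]
          · intro j
            show Function.update (m.conf t).2 (m.A (m.conf t).1) (m.W (m.conf t).1 v) j =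
              capN Z (num (Function.update M (bval (A.addr q))
                (A.write (sd q ++ M (bval (A.addr q)))) j))
            have h1 : m.W (m.conf t).1 v = num (A.write (sd q ++ M (bval (A.addr q)))) := by
              rw [hq, hm, W_nacc hacc, hcat, hW _ hcl, if_pos hWlen, capN_num hWlen]
            rw [h1, haddr]
            by_cases hj : j = bval (A.addr q)
            · subst hj
              rw [Function.update_self, Function.update_self, capN_num hWlen]
            · rw [Function.update_of_ne hj, Function.update_of_ne hj]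
              exact hM j

theorem inv2 (hA : Good A.addr eA S Λ β B (2 * S + Z + 1)) (hN : Good A.next eN S Λ β B (2 * S + Z + 1))
    (hW : Good A.write eW Z Λ β B (2 * S + Z + 1))
    (hini : ∀ a b, dig B0 ini (3 * codeO a + codeO b) = num (A.init a b)) {r : ℕ}
    (hfit : A.FitsL w y r S Z) : ∀ t ≤ r, (∀ s < t, ¬A.AcceptsAt w y s) →
      ((machL eA eN eW ini B0 (num A.start) Λ β B (num w) (num y) g S Z).conf t).1 =
        num (A.conf w y t).1 ∧
      ∀ j, ((machL eA eN eW ini B0 (num A.start) Λ β B (num w) (num y) g S Z).conf t).2 j =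
        num ((A.conf w y t).2 j) := by
  intro t
  induction t with
  | zero =>
    intro _ _
    rw [conf_zero hini]
    exact ⟨capN_num (hfit 0 (by omega)).1, fun j => capN_num ((hfit 0 (by omega)).2.2 j)⟩
  | succ t ih =>
    intro ht hs
    obtain ⟨hq, hM⟩ := ih (by omega) fun s hs' => hs s (by omega)
    obtain ⟨hlen, hAlen, hMlen⟩ := hfit t (by omega)
    obtain ⟨hlen', _, hMlen'⟩ := hfit (t + 1) ht
    have hnacc := hs t (by omega)
    rw [conf_succ]
    set m := machL eA eN eW ini B0 (num A.start) Λ β B (num w) (num y) g S Z with hm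
    have e1 : (A.conf w y (t + 1)).1 = A.next (sd (A.conf w y t).1 ++
        (A.conf w y t).2 (bval (A.addr (A.conf w y t).1))) := rfl
    have e2 : (A.conf w y (t + 1)).2 = Function.update (A.conf w y t).2
        (bval (A.addr (A.conf w y t).1)) (A.write (sd (A.conf w y t).1 ++
        (A.conf w y t).2 (bval (A.addr (A.conf w y t).1)))) := rfl
    have hna : accN (num (A.conf w y t).1) ≠ 1 := fun h => hnacc ((accN_num _).1 h)
    have hWlen : (A.write (sd (A.conf w y t).1 ++
        (A.conf w y t).2 (bval (A.addr (A.conf w y t).1)))).length ≤ Z := by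
      have := hMlen' (bval (A.addr (A.conf w y t).1))
      rwa [e2, Function.update_self] at this
    rw [e1] at hlen'
    have hML := hMlen (bval (A.addr (A.conf w y t).1))
    rw [e1, e2]
    set q := (A.conf w y t).1 with hqdef
    set M := (A.conf w y t).2 with hMdef
    have haddr : m.A (m.conf t).1 = bval (A.addr q) := by
      rw [hq]
      exact addr_eq hA hlen hAlen
    have hv : (m.conf t).2 (m.A (m.conf t).1) = num (M (bval (A.addr q))) := by
      rw [haddr]
      exact hM _
    have hcat : catN (sdN (num q)) (num (M (bval (A.addr q)))) =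
        num (sd q ++ M (bval (A.addr q))) := by
      rw [sdN_num, catN_num]
    have hcl : (sd q ++ M (bval (A.addr q))).length ≤ 2 * S + Z + 1 := by
      rw [List.length_append, length_sd]
      omega
    constructor
    · show m.N (m.conf t).1 ((m.conf t).2 (m.A (m.conf t).1)) = _
      rw [hv, hq, hm, N_nacc hna, hcat, hN _ hcl, if_pos hlen', hW _ hcl, if_pos hWlen,
        hA _ (by omega), if_pos hAlen, ifz_ne, capN_num hlen']
      exact (Nat.mul_pos (num_pos _) (Nat.mul_pos (num_pos _) (num_pos _))).ne'
    · intro j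
      show Function.update (m.conf t).2 (m.A (m.conf t).1)
        (m.W (m.conf t).1 ((m.conf t).2 (m.A (m.conf t).1))) j = _
      have h1 : m.W (m.conf t).1 ((m.conf t).2 (m.A (m.conf t).1)) =
          num (A.write (sd q ++ M (bval (A.addr q)))) := by
        rw [hv, hq, hm, W_nacc hna, hcat, hW _ hcl, if_pos hWlen, capN_num hWlen]
      rw [h1, haddr]
      by_cases hj : j = bval (A.addr q)
      · subst hj
        rw [Function.update_self, Function.update_self]
      · rw [Function.update_of_ne hj, Function.update_of_ne hj]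
        exact hM j

end

/-- Every random access machine has a code: the machine on numbers follows the machine on words
until it fails or accepts, and then stops. -/
theorem exists_code (A : RAM) : ∃ eA eN eW ini B0 st c : ℕ, ∀ (w y : List Bool)
    (S Z Λ β B g : ℕ), c * (4 * S + 4 * Z + 4) ≤ Λ → c + Λ + 4 * S + 4 * Z + 4 ≤ β →
    2 ^ (S + 1) ≤ B → 2 ^ (Z + 1) ≤ B →
    (∀ t, ((machL eA eN eW ini B0 st Λ β B (num w) (num y) g S Z).conf t).1 = 0 ∨
      ∃ τ, (A.conf w y τ).1.length ≤ S ∧
        ((machL eA eN eW ini B0 st Λ β B (num w) (num y) g S Z).conf t).1 =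
          num (A.conf w y τ).1 ∧
        ∀ j, ((machL eA eN eW ini B0 st Λ β B (num w) (num y) g S Z).conf t).2 j =
          capN Z (num ((A.conf w y τ).2 j))) ∧
    (∀ r, A.FitsL w y r S Z → ∀ t ≤ r, (∀ s < t, ¬A.AcceptsAt w y s) →
      ((machL eA eN eW ini B0 st Λ β B (num w) (num y) g S Z).conf t).1 =
        num (A.conf w y t).1 ∧
      ∀ j, ((machL eA eN eW ini B0 st Λ β B (num w) (num y) g S Z).conf t).2 j =
        num ((A.conf w y t).2 j)) ∧
    (∀ q v, accN q = 1 → capN S q = q →
      (machL eA eN eW ini B0 st Λ β B (num w) (num y) g S Z).N q v = q) ∧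
    (∀ q v, accN q = 1 → capN Z v = v →
      (machL eA eN eW ini B0 st Λ β B (num w) (num y) g S Z).W q v = v) ∧
    ∀ t, capN S ((machL eA eN eW ini B0 st Λ β B (num w) (num y) g S Z).conf t).1 =
      ((machL eA eN eW ini B0 st Λ β B (num w) (num y) g S Z).conf t).1 := by
  obtain ⟨eA, cA, hA⟩ := fnN_spec A.addr_lin
  obtain ⟨eN, cN, hN⟩ := fnN_spec A.next_lin
  obtain ⟨eW, cW, hW⟩ := fnN_spec A.write_lin
  obtain ⟨B0, ini, hini⟩ := exists_ini A.init
  refine ⟨eA, eN, eW, ini, B0, num A.start, cA + cN + cW, ?_⟩
  intro w y S Z Λ β B g hΛ hβ hB hB'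
  have hgood : ∀ (f : List Bool → List Bool) (e c' T : ℕ), c' ≤ cA + cN + cW →
      (∀ (w : List Bool) (S Λ β B : ℕ), c' * (S + w.length + 2) ≤ Λ →
        c' + Λ + S + w.length + 1 ≤ β → 2 ^ (S + 1) ≤ B →
        fnN e S Λ β B (num w) = if (f w).length ≤ S then num (f w) else 0) →
      T ≤ S + Z → 2 ^ (T + 1) ≤ B → Good f e T Λ β B (2 * S + Z + 1) := by
    intro f e c' T hc' hf hT hTB u hu
    refine hf u _ _ _ _ ?_ ?_ hTB
    · refine le_trans ?_ hΛ
      exact Nat.mul_le_mul hc' (by omega)
    · omega
  have gA := hgood A.addr eA cA S (by omega) hA (by omega) hB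
  have gN := hgood A.next eN cN S (by omega) hN (by omega) hB
  have gW := hgood A.write eW cW Z (by omega) hW (by omega) hB'
  exact ⟨inv gA gN gW hini, fun r hfit => inv2 gA gN gW hini hfit,
    fun q v h1 h2 => N_acc h1 h2, fun q v h1 h2 => W_acc h1 h2, cap_state⟩

/-- A random access machine on words and its machine on numbers. -/
theorem mcor (A : RAM) : ∃ eA eN eW ini B0 st c : ℕ, ∀ (w y : List Bool)
    (S Z Λ β B g : ℕ), c * (4 * S + 4 * Z + 4) ≤ Λ → c + Λ + 4 * S + 4 * Z + 4 ≤ β →
    2 ^ (S + 1) ≤ B → 2 ^ (Z + 1) ≤ B →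
    (∀ T, accN ((machL eA eN eW ini B0 st Λ β B (num w) (num y) g S Z).conf T).1 = 1 →
      ∃ t, A.AcceptsAt w y t) ∧
    ∀ r T, r ≤ T → A.FitsL w y r S Z → A.AcceptsAt w y r →
      accN ((machL eA eN eW ini B0 st Λ β B (num w) (num y) g S Z).conf T).1 = 1 := by
  obtain ⟨eA, eN, eW, ini, B0, st, c, h⟩ := exists_code A
  refine ⟨eA, eN, eW, ini, B0, st, c, fun w y S Z Λ β B g hΛ hβ hB hB' => ?_⟩
  obtain ⟨h1, h2, h3, h4, h5⟩ := h w y S Z Λ β B g hΛ hβ hB hB'
  refine ⟨fun T hT => ?_, fun r T hr hfit hacc => ?_⟩
  · rcases h1 T with h | ⟨τ, _, h, _⟩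
    · rw [h, accN_zero] at hT
      omega
    · rw [h] at hT
      exact ⟨τ, (accN_num _).1 hT⟩
  · classical
    have hex : ∃ t, A.AcceptsAt w y t := ⟨r, hacc⟩
    have hle : Nat.find hex ≤ r := Nat.find_min' hex hacc
    have h := (h2 r hfit (Nat.find hex) hle fun s hs => Nat.find_min hex hs).1
    have hkeep : ∀ T, Nat.find hex ≤ T →
        accN ((machL eA eN eW ini B0 st Λ β B (num w) (num y) g S Z).conf T).1 = 1 := by
      intro T hT
      induction T, hT using Nat.le_induction with
      | base =>
        rw [h]
        exact (accN_num _).2 (Nat.find_spec hex)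
      | succ T _ ih =>
        rw [conf_succ]
        show accN ((machL eA eN eW ini B0 st Λ β B (num w) (num y) g S Z).N _ _) = 1
        rw [h3 _ _ ih (h5 T)]
        exact ih
    exact hkeep T (hle.trans hr)

end Pool.Agent.Helper28.Long
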