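import Pool.Agent.Helper28.Long.Main
import Pool.Agent.Helper19.Ram.FLAT
import Pool.Agent.Helper85.Tok.INNER
import Pool.Agent.Helper32.Tok.TRUTH
import Pool.Agent.Helper32.Tok.LSOP
import Pool.Agent.Helper33.Tok.REL
import Pool.Agent.Helper4.Tok.PROC
import Pool.Agent.Helper70.Tok.ELEV
import Pool.Agent.Helper72.Tok.NLEV
import Pool.Agent.Helper72.Tok.PARA
import Pool.Agent.Helper59.Tok.PARB

/-!
# All parts of the simulation of token machines
-/

namespace Pool.Agent.Helper28.Long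

open Pool.Agent.Helper78.Tok

theorem proc : PROC_stmt := Pool.Agent.Helper4.Tok.PROC
  (Pool.Agent.Helper70.Tok.ELEV Pool.Agent.Helper85.Tok.INNER)
  (Pool.Agent.Helper72.Tok.NLEV Pool.Agent.Helper85.Tok.LINE Pool.Agent.Helper32.Tok.TRUTH)

theorem parts : Parts where
  FLAT := Pool.Agent.Helper19.Ram.FLAT
  REL := Pool.Agent.Helper33.Tok.REL Pool.Agent.Helper33.Tok.FCAST
  FINAL := Pool.Agent.Helper4.Tok.FINAL proc
  LSOP := Pool.Agent.Helper32.Tok.LSOP
  PARA := Pool.Agent.Helper72.Tok.PARA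
  PARB := Pool.Agent.Helper59.Tok.PARB

end Pool.Agent.Helper28.Long
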