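import Pool.Agent.Helper28.Ram.Mach
import Pool.Agent.Helper28.Few.Defs
import Pool.Agent.Helper78.Tok.Num

/-!
# Random access machines with long registers

The registers contain words which may be much longer than the state and the addresses.
-/

namespace Pool.Agent.Helper28.Long

open Pool.Agent.Helper65.LinSpace Pool.Agent.Helper78.Mpc Pool.Agent.Helper28.Ram

/-- The machine on numbers of a random access machine with the codes `eA`, `eN`, `eW` of its
functions. States and addresses of length at most `S` and contents of length at most `Z` are coded
by their numbers, and `0` is the state after a failure (a word was too long). A state whose first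
letter is `1` is kept forever. -/
def machL (eA eN eW ini B0 st Λ β B x y g S Z : ℕ) : Pool.Agent.Helper78.Tok.Mach where
  σ := S + 1
  a := Z + 1
  b := g / (S + 1)
  G := g
  A q := capN S (fnN eA S Λ β B q) - 2 ^ Nat.log 2 (capN S (fnN eA S Λ β B q))
  N q v := capN S (ifz (accN q)
    (ifz (fnN eA S Λ β B q * (v * fnN eW Z Λ β B (catN (sdN q) v))) 0
      (fnN eN S Λ β B (catN (sdN q) v))) q)
  W q v := capN Z (ifz (accN q) (fnN eW Z Λ β B (catN (sdN q) v)) v)
  q0 := capN S st
  M0 a := capN Z (dig B0 ini (3 * letN x a + letN y a))

end Pool.Agent.Helper28.Long
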